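import Pool.Agent.Helper6.FixK.Rayleigh

/-! Packet W4 of `MP_75608d_al`: pointwise bounds on tuples from bounds on the representations. -/

set_option linter.unusedSectionVars false

namespace Pool.Agent.Helper75.W

open Matrix Equiv Pool.Agent.Helper15.An Pool.Agent.Helper6.FixK
open scoped ComplexOrder

variable {n : ℕ}

theorem trace_ineq {D : ℕ} (ρ : Perm (Fin n) →* Matrix (Fin D) (Fin D) ℂ)
    (hu : ∀ g, (ρ g)ᴴ * ρ g = 1) (H : Subgroup (Perm (Fin n))) [Fintype H]
    (W : Matrix (Fin D) (Fin D) ℂ) (δ : ℝ) (hW : W.PosSemidef)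
    (hW' : (δ • (1 : Matrix (Fin D) (Fin D) ℂ) - W).PosSemidef) (σ τ : Perm (Fin n)) :
    (trace (ρ σ * psum ρ H * ρ τ⁻¹ * W)).re ≤ δ * (trace (psum ρ H)).re := by
  have hc : (0 : ℝ) < Fintype.card H := card_pos' H
  have hPP := psum_mul_psum ρ H
  have hPH : (psum ρ H)ᴴ = psum ρ H := (psum_isHermitian ρ H hu).eq
  generalize (Fintype.card H : ℝ) = c at hc hPP
  generalize psum ρ H = P at hPP hPH
  have hvH : (ρ τ * P)ᴴ = P * ρ τ⁻¹ := by rw [conjTranspose_mul, hPH, rho_conj ρ hu]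
  have h1 : c * (trace (ρ σ * P * ρ τ⁻¹ * W)).re = (trace ((ρ τ * P)ᴴ * W * (ρ σ * P))).re := by
    rw [hvH, trace_mul_comm (P * ρ τ⁻¹ * W) (ρ σ * P)]
    rw [show ρ σ * P * (P * ρ τ⁻¹ * W) = ρ σ * (P * P) * ρ τ⁻¹ * W by
      simp only [Matrix.mul_assoc], hPP]
    rw [Matrix.mul_smul, Matrix.smul_mul, Matrix.smul_mul, trace_smul, Complex.real_smul,
      Complex.re_ofReal_mul]
  have hquad : ∀ x : Perm (Fin n), (trace ((ρ x * P)ᴴ * W * (ρ x * P))).re ≤
      δ * (c * (trace P).re) := by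
    intro x
    have h2 := (Complex.nonneg_iff.1 (hW'.conjTranspose_mul_mul_same (ρ x * P)).trace_nonneg).1
    rw [Matrix.mul_sub, Matrix.sub_mul, trace_sub, Complex.sub_re, Matrix.mul_smul,
      Matrix.mul_one, Matrix.smul_mul, trace_smul, Complex.real_smul, Complex.re_ofReal_mul] at h2
    have h3 : (ρ x * P)ᴴ * (ρ x * P) = c • P := by
      rw [conjTranspose_mul, hPH]
      calc P * (ρ x)ᴴ * (ρ x * P) = P * ((ρ x)ᴴ * ρ x) * P := by simp only [Matrix.mul_assoc]
        _ = c • P := by rw [hu, Matrix.mul_one, hPP]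
    rw [h3, trace_smul, Complex.real_smul, Complex.re_ofReal_mul] at h2
    linarith
  have hcs : 2 * (trace ((ρ τ * P)ᴴ * W * (ρ σ * P))).re ≤
      (trace ((ρ σ * P)ᴴ * W * (ρ σ * P))).re + (trace ((ρ τ * P)ᴴ * W * (ρ τ * P))).re := by
    have h2 := (Complex.nonneg_iff.1
      (hW.conjTranspose_mul_mul_same (ρ σ * P - ρ τ * P)).trace_nonneg).1
    rw [conjTranspose_sub, Matrix.sub_mul, Matrix.sub_mul, Matrix.mul_sub, Matrix.mul_sub,
      trace_sub, trace_sub, trace_sub, Complex.sub_re, Complex.sub_re, Complex.sub_re] at h2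
    have h3 : (trace ((ρ σ * P)ᴴ * W * (ρ τ * P))).re =
        (trace ((ρ τ * P)ᴴ * W * (ρ σ * P))).re := by
      have h4 : ∀ u v : Matrix (Fin D) (Fin D) ℂ, (vᴴ * W * u)ᴴ = uᴴ * W * v := by
        intro u v
        rw [conjTranspose_mul, conjTranspose_mul, conjTranspose_conjTranspose,
          hW.isHermitian.eq, Matrix.mul_assoc]
      rw [← h4, trace_conjTranspose]
      simp
    linarith
  have h5 := hquad σ
  have h6 := hquad τ
  have h7 : c * (trace (ρ σ * P * ρ τ⁻¹ * W)).re ≤ c * (δ * (trace P).re) := by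
    rw [h1]
    linarith
  exact le_of_mul_le_mul_left h7 hc

theorem inversion (F : PW (Perm (Fin n))) (κ : Perm (Fin n) → ℝ) (g : Perm (Fin n)) :
    ∑ i, (F.D i : ℂ) * trace (F.ρ i g⁻¹ * wop (F.ρ i) κ) =
      (Fintype.card (Perm (Fin n)) : ℂ) * (κ g : ℂ) := by
  classical
  have h1 : ∀ i, (F.D i : ℂ) * trace (F.ρ i g⁻¹ * wop (F.ρ i) κ) =
      ∑ x, (κ x : ℂ) * (trace (F.ρ i 1) * trace (F.ρ i (g⁻¹ * x))) := by
    intro i
    unfold wop
    rw [Finset.mul_sum, trace_sum, Finset.mul_sum]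
    refine Finset.sum_congr rfl fun x _ => ?_
    rw [Matrix.mul_smul, trace_smul, ← map_mul, map_one, trace_one, Fintype.card_fin,
      Complex.real_smul]
    ring
  simp_rw [h1]
  rw [Finset.sum_comm]
  simp_rw [← Finset.mul_sum, F.col]
  rw [Finset.sum_eq_single g]
  · rw [inv_mul_cancel]
    simp [mul_comm]
  · intro x _ hne
    have : Finset.univ.filter (fun y : Perm (Fin n) => 1 * y * (g⁻¹ * x) = y) = ∅ := by
      rw [Finset.filter_eq_empty_iff]
      intro y _ hy
      rw [one_mul] at hy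
      have hy1 : g⁻¹ * x = 1 := by simpa using hy
      exact hne (inv_mul_eq_one.1 hy1).symm
    rw [this]; simp
  · intro h; exact absurd (Finset.mem_univ g) h

theorem card_stab_mul {j : ℕ} (hj : j + 2 ≤ n) :
    (Fintype.card (stab n j) : ℝ) * n.descFactorial j = Fintype.card (Alt n) := by
  classical
  have hj' : j ≤ n := by omega
  obtain ⟨c, hc, hG⟩ := sum_preTuple (n := n) hj
  have h1 := hG fun _ => 1
  have h2 := hG fun a => if a = Fin.castLEEmb hj' then 1 else 0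
  have hcard : Fintype.card (Fin j ↪ Fin n) = n.descFactorial j := by
    rw [Fintype.card_embedding_eq, Fintype.card_fin, Fintype.card_fin]
  simp only [Finset.sum_const, Finset.card_univ, hcard, nsmul_eq_mul, mul_one] at h1
  rw [Finset.sum_ite_eq' Finset.univ (Fin.castLEEmb hj') (fun _ => (1 : ℝ))] at h2
  simp only [Finset.mem_univ, if_true, mul_one] at h2
  rw [← Finset.sum_filter, Finset.sum_const, nsmul_eq_mul, mul_one] at h2
  have h3 : Fintype.card (stab n j) =
      (Finset.univ.filter fun g : Alt n => preTuple hj' g = Fin.castLEEmb hj').card := by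
    rw [← Finset.card_univ]
    refine Finset.card_bij (fun h _ => (⟨(h : Perm (Fin n)), mem_Alt.2 h.2.1⟩ : Alt n)) ?_ ?_ ?_
    · intro h _
      rw [Finset.mem_filter]
      refine ⟨Finset.mem_univ _, ?_⟩
      ext i
      rw [preTuple_apply]
      congr 1
      show ((h : Perm (Fin n)))⁻¹ (Fin.castLE hj' i) = Fin.castLEEmb hj' i
      rw [Perm.inv_eq_iff_eq]
      exact (h.2.2 (Fin.castLE hj' i) i.2).symm
    · intro x _ y _ hxy
      exact Subtype.ext (congrArg (fun z : Alt n => (z : Perm (Fin n))) hxy)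
    · intro g hg
      rw [Finset.mem_filter] at hg
      refine ⟨⟨(g : Perm (Fin n)), mem_Alt.1 g.2, fun i hi => ?_⟩, Finset.mem_univ _, rfl⟩
      have h4 := congrArg (fun f : Fin j ↪ Fin n => f ⟨i.1, hi⟩) hg.2
      have h5 : ((g⁻¹ : Alt n) : Perm (Fin n)) i = i := h4
      rw [Subgroup.coe_inv, Perm.inv_eq_iff_eq] at h5
      exact h5.symm
  rw [h3, h2, h1]

theorem wise_of_levels {n : ℕ} (F : PW (Perm (Fin n))) (κ : Perm (Fin n) → ℝ)
    (h1 : ∑ g, κ g = 1) (h2 : ∀ g, g ∉ Alt n → κ g = 0) (p : ℕ) (hp : p + 2 ≤ n)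
    (δ : ℝ) (hδ : 0 ≤ δ)
    (hW : ∀ i, ¬ Triv (F.ρ i) (Alt n) → HasFix (F.ρ i) (stab n p) →
      (wop (F.ρ i) κ).PosSemidef ∧
      (δ • (1 : Matrix (Fin (F.D i)) (Fin (F.D i)) ℂ) - wop (F.ρ i) κ).PosSemidef)
    (j : ℕ) (hj : j ≤ p) (a b : Fin j ↪ Fin n) :
    ∑ g ∈ Finset.univ.filter (fun g : Perm (Fin n) => ∀ i, g (a i) = b i), κ g ≤
      1 / (n.descFactorial j : ℝ) + δ := by
  classical
  have hj2 : j + 2 ≤ n := by omega
  have hj' : j ≤ n := by omega
  obtain ⟨ga, hga⟩ := exists_alt_preTuple hj2 a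
  obtain ⟨gb, hgb⟩ := exists_alt_preTuple hj2 b
  set σ : Perm (Fin n) := ((ga⁻¹ : Alt n) : Perm (Fin n)) with hσ
  set τ : Perm (Fin n) := ((gb⁻¹ : Alt n) : Perm (Fin n)) with hτ
  have hσa : ∀ i, σ (Fin.castLE hj' i) = a i := fun i => by rw [← hga, preTuple_apply]
  have hτb : ∀ i, τ (Fin.castLE hj' i) = b i := fun i => by rw [← hgb, preTuple_apply]
  have hσA : σ ∈ Alt n := (ga⁻¹).2
  have hτA : τ ∈ Alt n := (gb⁻¹).2
  have hN : (0 : ℝ) < Fintype.card (Perm (Fin n)) := by exact_mod_cast Fintype.card_pos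
  -- the sum over the coset
  have hcoset : ∑ g ∈ Finset.univ.filter (fun g : Perm (Fin n) => ∀ i, g (a i) = b i), κ g =
      ∑ h : stab n j, κ (τ * (h : Perm (Fin n)) * σ⁻¹) := by
    have h3 : ∑ h : stab n j, κ (τ * (h : Perm (Fin n)) * σ⁻¹) =
        ∑ x : Perm (Fin n), if x ∈ stab n j then κ (τ * x * σ⁻¹) else 0 := by
      rw [← Finset.sum_filter]
      refine (Finset.sum_subtype (Finset.univ.filter (fun g => g ∈ stab n j)) (by simp)
        (fun x => κ (τ * x * σ⁻¹))).symm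
    rw [h3, ← Equiv.sum_comp ((Equiv.mulLeft τ⁻¹).trans (Equiv.mulRight σ))
      (fun x => if x ∈ stab n j then κ (τ * x * σ⁻¹) else 0), Finset.sum_filter]
    refine Finset.sum_congr rfl fun g _ => ?_
    have h4 : ((Equiv.mulLeft τ⁻¹).trans (Equiv.mulRight σ)) g = τ⁻¹ * g * σ := rfl
    have h5 : τ * (τ⁻¹ * g * σ) * σ⁻¹ = g := by group
    simp only [h4, h5]
    by_cases hgA : g ∈ Alt n
    · have h6 : (∀ i, g (a i) = b i) ↔ τ⁻¹ * g * σ ∈ stab n j := by
        rw [mem_stab]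
        constructor
        · intro h
          refine ⟨?_, fun i hi => ?_⟩
          · exact mem_Alt.1 ((Alt n).mul_mem ((Alt n).mul_mem ((Alt n).inv_mem hτA) hgA) hσA)
          · have h7 := h ⟨i.1, hi⟩
            have h8 : Fin.castLE hj' ⟨i.1, hi⟩ = i := rfl
            rw [← hσa, ← hτb, h8] at h7
            rw [Perm.mul_apply, Perm.mul_apply, Perm.inv_eq_iff_eq]
            exact h7
        · rintro ⟨-, h⟩ i
          have h7 := h (Fin.castLE hj' i) i.2
          rw [Perm.mul_apply, Perm.mul_apply, Perm.inv_eq_iff_eq, hσa, hτb] at h7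
          exact h7
      by_cases h7 : ∀ i, g (a i) = b i
      · rw [if_pos h7, if_pos (h6.1 h7)]
      · rw [if_neg h7, if_neg fun h8 => h7 (h6.2 h8)]
    · rw [h2 g hgA]; simp
  -- Fourier inversion
  have hkey : (Fintype.card (Perm (Fin n)) : ℝ) * ∑ h : stab n j, κ (τ * (h : Perm (Fin n)) * σ⁻¹) =
      ∑ i, (F.D i : ℝ) *
        (trace (F.ρ i σ * psum (F.ρ i) (stab n j) * F.ρ i τ⁻¹ * wop (F.ρ i) κ)).re := by
    have h3 : (Fintype.card (Perm (Fin n)) : ℂ) *
        ((∑ h : stab n j, κ (τ * (h : Perm (Fin n)) * σ⁻¹) : ℝ) : ℂ) =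
        ∑ i, (F.D i : ℂ) *
          trace (F.ρ i σ * psum (F.ρ i) (stab n j) * F.ρ i τ⁻¹ * wop (F.ρ i) κ) := by
      push_cast
      rw [Finset.mul_sum]
      simp_rw [← inversion F κ]
      rw [Finset.sum_comm]
      refine Finset.sum_congr rfl fun i _ => ?_
      rw [← Finset.mul_sum, ← trace_sum]
      congr 2
      rw [← Finset.sum_mul]
      congr 1
      unfold psum
      rw [Finset.mul_sum, Finset.sum_mul, ← Equiv.sum_comp (Equiv.inv (stab n j))]
      refine Finset.sum_congr rfl fun h _ => ?_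
      rw [← map_mul, ← map_mul]
      congr 1
    have h4 := congrArg Complex.re h3
    rw [Complex.re_sum, ← Complex.ofReal_natCast, Complex.re_ofReal_mul, Complex.ofReal_re] at h4
    rw [h4]
    refine Finset.sum_congr rfl fun i _ => ?_
    rw [← Complex.ofReal_natCast, Complex.re_ofReal_mul]
  have hterm : ∀ i, (F.D i : ℝ) *
      (trace (F.ρ i σ * psum (F.ρ i) (stab n j) * F.ρ i τ⁻¹ * wop (F.ρ i) κ)).re ≤
      (if Triv (F.ρ i) (Alt n) then (Fintype.card (stab n j) : ℝ) * (F.D i : ℝ) ^ 2 else 0) +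
        δ * ((F.D i : ℝ) * (trace (psum (F.ρ i) (stab n j))).re) := by
    intro i
    have hu := (F.irr i).unit
    have hnn := trace_psum_nonneg (F.ρ i) (stab n j) hu
    have hD : (0 : ℝ) ≤ F.D i := Nat.cast_nonneg _
    by_cases ht : Triv (F.ρ i) (Alt n)
    · have h3 : psum (F.ρ i) (stab n j) =
          (Fintype.card (stab n j) : ℝ) • (1 : Matrix (Fin (F.D i)) (Fin (F.D i)) ℂ) := by
        unfold psum
        rw [Finset.sum_congr rfl fun (h : stab n j) _ => ht ⟨(h : Perm (Fin n)), mem_Alt.2 h.2.1⟩,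
          Finset.sum_const, Finset.card_univ]
        ext a b
        simp
      have h4 : F.ρ i σ = 1 := ht ⟨σ, hσA⟩
      have h5 : F.ρ i τ⁻¹ = 1 := ht ⟨τ⁻¹, (Alt n).inv_mem hτA⟩
      have h6 : (trace (F.ρ i σ * psum (F.ρ i) (stab n j) * F.ρ i τ⁻¹ * wop (F.ρ i) κ)).re =
          (Fintype.card (stab n j) : ℝ) * F.D i := by
        rw [h4, h5, wop_triv (F.ρ i) (Alt n) ht h1 h2, h3, Matrix.one_mul, Matrix.mul_one,
          Matrix.mul_one, trace_smul, trace_one]
        simp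
      rw [if_pos ht, h6]
      have h7 : 0 ≤ δ * ((F.D i : ℝ) * (trace (psum (F.ρ i) (stab n j))).re) := by positivity
      nlinarith
    · rw [if_neg ht, zero_add]
      by_cases hf : HasFix (F.ρ i) (stab n j)
      · obtain ⟨hW1, hW2⟩ := hW i ht (hf.mono hj)
        have h3 := trace_ineq (F.ρ i) hu (stab n j) (wop (F.ρ i) κ) δ hW1 hW2 σ τ
        have h4 := mul_le_mul_of_nonneg_left h3 hD
        linarith
      · rw [psum_eq_zero (F.ρ i) _ hf]
        simp
  have hA : (0 : ℝ) < Fintype.card (Alt n) := card_pos' (Alt n)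
  have hH : (0 : ℝ) < Fintype.card (stab n j) := card_pos' (stab n j)
  have hsum : (Fintype.card (Perm (Fin n)) : ℝ) *
      ∑ h : stab n j, κ (τ * (h : Perm (Fin n)) * σ⁻¹) ≤
      Fintype.card (stab n j) * (Fintype.card (Perm (Fin n)) / Fintype.card (Alt n)) +
        δ * Fintype.card (Perm (Fin n)) := by
    rw [hkey]
    refine (Finset.sum_le_sum fun i _ => hterm i).trans ?_
    rw [Finset.sum_add_distrib, ← Finset.mul_sum, sum_dim_trace F (stab n j)]
    gcongr
    rw [← Finset.sum_filter, ← Finset.mul_sum]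
    refine mul_le_mul_of_nonneg_left (sum_dim_sq_triv_le F (Alt n) _ fun i hi => ?_)
      (Nat.cast_nonneg _)
    exact (Finset.mem_filter.1 hi).2
  rw [hcoset]
  have hd := card_stab_mul (n := n) hj2
  have hd0 : (0 : ℝ) < n.descFactorial j := by
    exact_mod_cast Nat.descFactorial_pos.2 hj'
  have hd1 : (1 : ℝ) / n.descFactorial j = Fintype.card (stab n j) / Fintype.card (Alt n) := by
    rw [← hd]
    field_simp
  rw [hd1]
  have h8 : (Fintype.card (Perm (Fin n)) : ℝ) *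
      ∑ h : stab n j, κ (τ * (h : Perm (Fin n)) * σ⁻¹) ≤
      Fintype.card (Perm (Fin n)) *
        (Fintype.card (stab n j) / Fintype.card (Alt n) + δ) := by
    refine hsum.trans (le_of_eq ?_)
    ring
  exact le_of_mul_le_mul_left h8 hN

end Pool.Agent.Helper75.W
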